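import Pool.Agent.Y578.Spl.Level

set_option autoImplicit false

/-! Splaying against level functions: the two final bounds. -/

namespace Pool.Agent.Y578.Spl

open Pool.Agent.H581R2.Splay Pool.Agent.TH49.Spl Tr

theorem pot_lower {w : ℕ → ℝ} (hw : ∀ a, 0 < w a) (t : Tr) :
    ((keys t).map fun a => Real.logb 2 (w a)).sum ≤ pot w t := by
  induction t with
  | nil => simp [keys, pot]
  | node a l r ihl ihr =>
    have h : Real.logb 2 (w a) ≤ Real.logb 2 (wt w (node a l r)) :=
      logb_mono (hw a) (by
        have := wt_nonneg hw l; have := wt_nonneg hw r; simp only [wt]; linarith)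
    simp only [keys, List.map_append, List.map_cons, List.sum_append, List.sum_cons, pot]
    linarith

theorem pot_congr {w w' : ℕ → ℝ} (hw : ∀ a, 0 < w a) (hw' : ∀ a, 0 < w' a) (t : Tr)
    (h : ∀ a ∈ keys t, w a = w' a) : pot w t = pot w' t :=
  le_antisymm (pot_mono hw t fun a ha => (h a ha).le) (pot_mono hw' t fun a ha => (h a ha).ge)

theorem pot_upper (Q : Finset ℕ) (t : Tr) : ∀ (k : ℕ), IsBST t →
    pot (fun a => (1 / 16 : ℝ) ^ (k + dep a t + 1)) (pr Q t) ≤
      ((keys (pr Q t)).map fun a => (-(4 * ((k : ℝ) + dep a t)) - Real.logb 2 14)).sum := by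
  induction t with
  | nil => intro k _; simp [pr, pot, keys]
  | node b l r ihl ihr =>
    intro k hb
    by_cases hbQ : b ∈ Q
    swap
    · simp [pr, hbQ, pot, keys]
    have hb0 := hb
    simp only [IsBST, keys] at hb
    rw [List.pairwise_append, List.pairwise_cons] at hb
    obtain ⟨hl, ⟨har, hr⟩, hlr⟩ := hb
    have dl : ∀ a ∈ keys l, dep a (node b l r) = dep a l + 1 := by
      intro a ha
      have : a < b := hlr a ha b (by simp)
      simp only [dep]; rw [if_neg (by omega), if_pos this]
    have dr : ∀ a ∈ keys r, dep a (node b l r) = dep a r + 1 := by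
      intro a ha
      have : b < a := har a ha
      simp only [dep]; rw [if_neg (by omega), if_neg (by omega)]
    have e : pr Q (node b l r) = node b (pr Q l) (pr Q r) := by simp [pr, hbQ]
    have hsub := pr_keys Q (node b l r)
    have hsl := (pr_keys Q l).subset
    have hsr := (pr_keys Q r).subset
    set w : ℕ → ℝ := fun a => (1 / 16 : ℝ) ^ (k + dep a (node b l r) + 1) with hwdef
    have hw : ∀ a, 0 < w a := fun a => by simp only [hwdef]; positivity
    -- total weight
    have htot : wt w (pr Q (node b l r)) ≤ (1 / 16 : ℝ) ^ k * (1 / 14) := by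
      rw [wt_eq]
      refine le_trans (List.Sublist.sum_le_sum (hsub.map _) ?_) ?_
      · intro c hc
        rw [List.mem_map] at hc
        obtain ⟨a, -, rfl⟩ := hc
        exact (hw a).le
      · have e2 : ((keys (node b l r)).map w).sum = (1 / 16 : ℝ) ^ k *
            ((keys (node b l r)).map fun a => (1 / 16 : ℝ) ^ (dep a (node b l r) + 1)).sum := by
          rw [← List.sum_map_mul_left]
          congr 1
          refine List.map_congr_left fun a _ => ?_
          simp only [hwdef]; rw [← pow_add]; rfl
        rw [e2]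
        exact mul_le_mul_of_nonneg_left (kraft16 _ hb0) (by positivity)
    have hroot : Real.logb 2 (wt w (pr Q (node b l r))) ≤
        -(4 * ((k : ℝ) + dep b (node b l r))) - Real.logb 2 14 := by
      have h1 : Real.logb 2 (wt w (pr Q (node b l r))) ≤ Real.logb 2 ((1 / 16 : ℝ) ^ k * (1 / 14)) :=
        logb_mono (by rw [e]; exact wt_pos hw _ _ _) htot
      have h2 : Real.logb 2 ((1 / 16 : ℝ) ^ k * (1 / 14)) = -(4 * (k : ℝ)) - Real.logb 2 14 := by
        rw [Real.logb_mul (by positivity) (by norm_num), Real.logb_pow, one_div, one_div,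
          Real.logb_inv, Real.logb_inv]
        have : Real.logb 2 (16 : ℝ) = 4 := by
          rw [show (16 : ℝ) = 2 ^ (4 : ℝ) by
            rw [show (4 : ℝ) = ((4 : ℕ) : ℝ) by norm_num, Real.rpow_natCast]; norm_num]
          rw [Real.logb_rpow (by norm_num) (by norm_num)]
        rw [this]; ring
      have h3 : dep b (node b l r) = 0 := by simp [dep]
      rw [h3]
      push_cast
      linarith
    have il := ihl (k + 1) hl
    have ir := ihr (k + 1) hr
    have cl : pot w (pr Q l) = pot (fun a => (1 / 16 : ℝ) ^ ((k + 1) + dep a l + 1)) (pr Q l) := by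
      refine pot_congr hw (fun a => by positivity) _ fun a ha => ?_
      simp only [hwdef]; rw [dl a (hsl ha)]; congr 1; ring
    have cr : pot w (pr Q r) = pot (fun a => (1 / 16 : ℝ) ^ ((k + 1) + dep a r + 1)) (pr Q r) := by
      refine pot_congr hw (fun a => by positivity) _ fun a ha => ?_
      simp only [hwdef]; rw [dr a (hsr ha)]; congr 1; ring
    have sl : ((keys (pr Q l)).map fun a =>
        (-(4 * ((k : ℝ) + dep a (node b l r))) - Real.logb 2 14)).sum =
        ((keys (pr Q l)).map fun a =>
        (-(4 * (((k + 1 : ℕ) : ℝ) + dep a l)) - Real.logb 2 14)).sum := by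
      congr 1
      refine List.map_congr_left fun a ha => ?_
      rw [dl a (hsl ha)]; push_cast; ring
    have sr : ((keys (pr Q r)).map fun a =>
        (-(4 * ((k : ℝ) + dep a (node b l r))) - Real.logb 2 14)).sum =
        ((keys (pr Q r)).map fun a =>
        (-(4 * (((k + 1 : ℕ) : ℝ) + dep a r)) - Real.logb 2 14)).sum := by
      congr 1
      refine List.map_congr_left fun a ha => ?_
      rw [dr a (hsr ha)]; push_cast; ring
    rw [e] at hroot ⊢
    simp only [keys, List.map_append, List.map_cons, List.sum_append, List.sum_cons, pot]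
    rw [sl, sr, cl, cr]
    linarith

theorem psi_eq {w : ℕ → ℝ} {S : Tr} {x : ℕ} (hx : x ∈ keys S) :
    psi w S = pot w S - Real.logb 2 (wt w S) := by
  cases S with
  | nil => simp [keys] at hx
  | node a l r => simp only [psi, pot]; ring

/-- The bound without an additive term, when the splay tree is the initial reference tree. -/
theorem lev_main {T0 : Tr} (hb : IsBST T0) {D : ℕ → ℕ} {X s : List ℕ}
    (hX : ∀ x ∈ X, x ∈ keys T0) (h0 : ∀ a ∈ keys T0, dep a T0 ≤ D a)
    (h : Lev (keys T0) D X s) : costSplay T0 X ≤ (s.map fun d => 7 + 15 * d).sum := by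
  rcases X with _ | ⟨x, X⟩
  · simp [costSplay]
  set Y := x :: X with hY
  set Q := tch T0 Y with hQ
  obtain ⟨hc, hYQ⟩ := costSplay_pr Y T0 Q hb hX (le_refl _)
  set S := pr Q T0 with hS
  have hsub : (keys S).Sublist (keys T0) := pr_keys Q T0
  have hbS : IsBST S := List.Pairwise.sublist hsub hb
  have hm := lev_pot (d0 := fun a => dep a T0) hb (kraft16 T0 hb) h ∅ S hbS hsub hYQ
    (fun a _ ha => h0 a ha)
  set w0 : ℕ → ℝ := fun a => (1 / 16 : ℝ) ^ (dep a T0 + 1) with hw0
  have hw : ∀ a, 0 < w0 a := fun a => by simp only [hw0]; positivity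
  have e1 : w16 (fun a => dep a T0) D ∅ Y = w0 := by
    funext a; simp [w16, hw0]
  rw [e1] at hm
  have hkr := runS_keys Y S hbS hYQ
  have hxS : x ∈ keys S := hYQ x (by simp [hY])
  have hxR : x ∈ keys (runS S Y) := by rw [hkr]; exact hxS
  rw [psi_eq hxS, psi_eq hxR] at hm
  have ewt : wt w0 (runS S Y) = wt w0 S := by rw [wt_eq, wt_eq, hkr]
  rw [ewt] at hm
  -- the potentials
  have hup : pot w0 S ≤ ((keys S).map fun a => (-(4 * (dep a T0 : ℝ)) - Real.logb 2 14)).sum := by
    have := pot_upper Q T0 0 hb
    have e2 : (fun a => (1 / 16 : ℝ) ^ (0 + dep a T0 + 1)) = w0 := by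
      funext a; simp only [hw0]; congr 1; ring
    rw [e2] at this
    refine le_trans this (le_of_eq ?_)
    congr 1
    refine List.map_congr_left fun a _ => ?_
    push_cast; ring
  have hlo : ((keys S).map fun a => (-(4 * ((dep a T0 : ℝ) + 1)))).sum ≤ pot w0 (runS S Y) := by
    have := pot_lower hw (runS S Y)
    rw [hkr] at this
    refine le_trans (le_of_eq ?_) this
    congr 1
    refine List.map_congr_left fun a _ => ?_
    simp only [hw0]; rw [logb_16]
  have hdiff : ((keys S).map fun a => (-(4 * (dep a T0 : ℝ)) - Real.logb 2 14)).sum =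
      ((keys S).map fun a => (-(4 * ((dep a T0 : ℝ) + 1)))).sum +
        ((keys S).length : ℝ) * (4 - Real.logb 2 14) := by
    generalize keys S = L
    induction L with
    | nil => simp
    | cons a L ih =>
      simp only [List.map_cons, List.sum_cons, List.length_cons]
      rw [ih]; push_cast; ring
  have hlen : (keys S).length ≤ costSplay T0 Y := by
    have nod : (keys S).Nodup := List.Pairwise.imp (fun {a b} h => by omega) hbS
    rw [← List.toFinset_card_of_nodup nod]
    refine le_trans (Finset.card_le_card ?_) (tch_card Y T0)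
    intro k hk
    rw [List.mem_toFinset] at hk
    exact pr_mem Q T0 k hk
  have hlen' : ((keys S).length : ℝ) ≤ costSplay T0 Y := by exact_mod_cast hlen
  have hcon : ((keys S).length : ℝ) * (4 - Real.logb 2 14) ≤ costSplay T0 Y * (1 / 5) := by
    have q1 := log_const2
    have q2 : (0 : ℝ) ≤ (keys S).length := by positivity
    nlinarith
  rw [hc] at hm
  have hs : (s.map fun d : ℕ => (28 / 5 + 12 * (d : ℝ))).sum =
      4 / 5 * (((s.map fun d => 7 + 15 * d).sum : ℕ) : ℝ) := by
    clear hm
    clear h
    induction s with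
    | nil => simp
    | cons d s ih =>
      simp only [List.map_cons, List.sum_cons]
      rw [ih]; push_cast; ring
  rw [hs] at hm
  have : (costSplay T0 Y : ℝ) ≤ (((s.map fun d => 7 + 15 * d).sum : ℕ) : ℝ) := by linarith
  exact_mod_cast this

end Pool.Agent.Y578.Spl
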