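import Pool.Agent.Y578.Spl.Main

set_option autoImplicit false

/-! Splaying against an arbitrary sequence of reference trees. -/

namespace Pool.Agent.Y578.Spl

open Pool.Agent.H581R2.Splay Pool.Agent.TH49.Spl Tr

/-- The greatest depth of the key `a` in the trees `T s`, `s ≤ i`, such that `a` is not requested
by `x s, …, x (i - 1)`. -/
def since (T : ℕ → Tr) (x : ℕ → ℕ) (i a : ℕ) : ℕ :=
  ((Finset.range (i + 1)).filter fun s => ∀ j < i, s ≤ j → x j ≠ a).sup fun s => dep a (T s)

theorem lev_since {T : ℕ → Tr} {x : ℕ → ℕ} (hk : ∀ s, keys (T s) = keys (T 0)) (r : ℕ) :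
    ∀ t : ℕ, Lev (keys (T 0)) (since T x t) ((List.range' t r).map x)
      ((List.range' t r).map fun i => since T x i (x i)) := by
  induction r with
  | zero => intro t; exact Lev.nil _
  | succ r ih =>
    intro t
    rw [List.range'_succ, List.map_cons, List.map_cons]
    refine Lev.cons _ (since T x (t + 1)) (T t) _ _ _ (hk t) ?_ ?_ (ih (t + 1))
    · intro a _
      unfold since
      refine Finset.le_sup (f := fun s => dep a (T s)) ?_
      rw [Finset.mem_filter, Finset.mem_range]
      exact ⟨by omega, fun j h1 h2 => by omega⟩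
    · intro a ha
      unfold since
      refine Finset.sup_mono ?_
      intro s hs
      rw [Finset.mem_filter, Finset.mem_range] at hs ⊢
      refine ⟨by omega, fun j h1 h2 => ?_⟩
      by_cases h3 : j < t
      · exact hs.2 j h3 h2
      · have : j = t := by omega
        subst this
        exact fun h => ha h.symm

theorem cost_since {T : ℕ → Tr} {x : ℕ → ℕ} {m : ℕ} (hb : IsBST (T 0))
    (hk : ∀ s, keys (T s) = keys (T 0)) (hx : ∀ i < m, x i ∈ keys (T 0)) :
    costSplay (T 0) ((List.range m).map x) ≤
      ∑ i ∈ Finset.range m, (7 + 15 * since T x i (x i)) := by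
  have h := lev_since (x := x) hk m 0
  rw [← List.range_eq_range'] at h
  have h2 := lev_main hb (by
    intro y hy
    rw [List.mem_map] at hy
    obtain ⟨i, hi, rfl⟩ := hy
    exact hx i (List.mem_range.1 hi)) (by
    intro a _
    unfold since
    refine Finset.le_sup (f := fun s => dep a (T s)) ?_
    rw [Finset.mem_filter, Finset.mem_range]
    exact ⟨by omega, fun j h1 h2 => by omega⟩) h
  refine le_trans h2 (le_of_eq ?_)
  rw [List.map_map, Finset.sum_eq_multiset_sum, Finset.range_val]
  simp [Multiset.range, Function.comp_def]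

end Pool.Agent.Y578.Spl
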