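import Pool.Agent.Y578.Spl.Main

set_option autoImplicit false

/-! Corollaries: executions whose changes of the tree are charged the number of levels by which
they lift the keys that are not requested. -/

namespace Pool.Agent.Y578.Spl

open Pool.Agent.H581R2.Splay Pool.Agent.TH49.Spl Tr

/-- `LRot T T' e`: the tree `T'` arises from `T` by one rotation, performed anywhere, and `e` keys
are closer to the root in `T'` than in `T`. -/
inductive LRot : Tr → Tr → ℕ → Prop
  | right (a b : ℕ) (A B C : Tr) :
      LRot (node a (node b A B) C) (node b A (node a B C)) (size A + 1)
  | left (a b : ℕ) (A B C : Tr) :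
      LRot (node b A (node a B C)) (node a (node b A B) C) (size C + 1)
  | inl (a : ℕ) (L L' R : Tr) (e : ℕ) : LRot L L' e → LRot (node a L R) (node a L' R) e
  | inr (a : ℕ) (L R R' : Tr) (e : ℕ) : LRot R R' e → LRot (node a L R) (node a L R') e

/-- `LRots T T' e`: finitely many rotations, `e` is the sum of the numbers of keys they lift. -/
inductive LRots : Tr → Tr → ℕ → Prop
  | refl (T : Tr) : LRots T T 0
  | step (T T' T'' : Tr) (e e' : ℕ) : LRot T T' e → LRots T' T'' e' → LRots T T'' (e + e')

/-- `LExec T X c`: an execution for the requests `X` with initial tree `T`: a request costs one plus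
the depth of its key in the current tree; after it any rotations are performed, anywhere, each of
them at a cost equal to the number of keys that it lifts; `c` is the total cost. -/
inductive LExec : Tr → List ℕ → ℕ → Prop
  | nil (T : Tr) : LExec T [] 0
  | cons (T T' : Tr) (x : ℕ) (X : List ℕ) (e c : ℕ) :
      LRots T T' e → LExec T' X c → LExec T (x :: X) (1 + dep x T + e + c)

theorem size_keys (t : Tr) : (keys t).length = size t := by
  induction t with
  | nil => rfl
  | node a l r ihl ihr => simp [keys, size, ihl, ihr]; omega

theorem sum_zero {l : List ℕ} {f : ℕ → ℕ} (h : ∀ k ∈ l, f k = 0) : (l.map f).sum = 0 := by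
  rw [List.sum_eq_zero_iff]
  intro b hb
  rw [List.mem_map] at hb
  obtain ⟨k, hk, rfl⟩ := hb
  exact h k hk

theorem sum_le_len {l : List ℕ} {f : ℕ → ℕ} (h : ∀ k ∈ l, f k ≤ 1) : (l.map f).sum ≤ l.length := by
  have := List.sum_le_sum (l := l) (f := f) (g := fun _ => 1) h
  simpa using this

theorem lrot {T T' : Tr} {e : ℕ} (h : LRot T T' e) : IsBST T → keys T' = keys T ∧
    ((keys T).map fun k => dep k T - dep k T').sum ≤ e := by
  induction h with
  | right a b A B C =>
    intro hb
    refine ⟨by simp [keys], ?_⟩
    simp only [IsBST, keys, List.append_assoc, List.cons_append] at hb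
    rw [List.pairwise_append, List.pairwise_cons, List.pairwise_append, List.pairwise_cons] at hb
    obtain ⟨-, ⟨hbk, -, ⟨hak, -⟩, hBa⟩, hA⟩ := hb
    have hba : b < a := hbk a (by simp)
    simp only [keys, List.map_append, List.map_cons, List.sum_append, List.sum_cons]
    have h1 : ((keys A).map fun k => dep k (node a (node b A B) C) -
        dep k (node b A (node a B C))).sum ≤ size A := by
      rw [← size_keys]
      refine sum_le_len fun k hk => ?_
      have h1 : k < b := hA k hk b (by simp)
      have h2 : k < a := by omega
      simp only [dep]
      rw [if_neg (by omega), if_pos h2, if_neg (by omega), if_pos h1, if_neg (by omega), if_pos h1]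
      omega
    have h2 : dep b (node a (node b A B) C) - dep b (node b A (node a B C)) ≤ 1 := by
      simp only [dep, if_true]
      split_ifs <;> omega
    have h3 : ((keys B).map fun k => dep k (node a (node b A B) C) -
        dep k (node b A (node a B C))).sum = 0 := by
      refine sum_zero fun k hk => ?_
      have h1 : b < k := hbk k (by simp [hk])
      have h2 : k < a := hBa k hk a (by simp)
      simp only [dep]
      rw [if_neg (by omega), if_pos h2, if_neg (by omega), if_neg (by omega), if_neg (by omega),
        if_neg (by omega), if_neg (by omega), if_pos h2]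
      omega
    have h4 : dep a (node a (node b A B) C) - dep a (node b A (node a B C)) = 0 := by
      simp only [dep, if_true]
      omega
    have h5 : ((keys C).map fun k => dep k (node a (node b A B) C) -
        dep k (node b A (node a B C))).sum = 0 := by
      refine sum_zero fun k hk => ?_
      have h1 : a < k := hak k hk
      simp only [dep]
      rw [if_neg (by omega), if_neg (by omega), if_neg (by omega), if_neg (by omega),
        if_neg (by omega), if_neg (by omega)]
      omega
    omega
  | left a b A B C =>
    intro hb
    refine ⟨by simp [keys], ?_⟩
    simp only [IsBST, keys] at hb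
    rw [List.pairwise_append, List.pairwise_cons, List.pairwise_append, List.pairwise_cons] at hb
    obtain ⟨-, ⟨hbk, -, ⟨hak, -⟩, hBa⟩, hA⟩ := hb
    have hba : b < a := hbk a (by simp)
    simp only [keys, List.map_append, List.map_cons, List.sum_append, List.sum_cons]
    have h1 : ((keys A).map fun k => dep k (node b A (node a B C)) -
        dep k (node a (node b A B) C)).sum = 0 := by
      refine sum_zero fun k hk => ?_
      have h1 : k < b := hA k hk b (by simp)
      have h2 : k < a := by omega
      simp only [dep]
      rw [if_neg (by omega), if_pos h1, if_neg (by omega), if_pos h2, if_neg (by omega), if_pos h1]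
      omega
    have h2 : dep b (node b A (node a B C)) - dep b (node a (node b A B) C) = 0 := by
      simp only [dep, if_true]
      omega
    have h3 : ((keys B).map fun k => dep k (node b A (node a B C)) -
        dep k (node a (node b A B) C)).sum = 0 := by
      refine sum_zero fun k hk => ?_
      have h1 : b < k := hbk k (by simp [hk])
      have h2 : k < a := hBa k hk a (by simp)
      simp only [dep]
      rw [if_neg (by omega), if_neg (by omega), if_neg (by omega), if_pos h2, if_neg (by omega),
        if_pos h2, if_neg (by omega), if_neg (by omega)]
      omega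
    have h4 : dep a (node b A (node a B C)) - dep a (node a (node b A B) C) ≤ 1 := by
      simp only [dep, if_true]
      split_ifs <;> omega
    have h5 : ((keys C).map fun k => dep k (node b A (node a B C)) -
        dep k (node a (node b A B) C)).sum ≤ size C := by
      rw [← size_keys]
      refine sum_le_len fun k hk => ?_
      have h1 : a < k := hak k hk
      simp only [dep]
      rw [if_neg (by omega), if_neg (by omega), if_neg (by omega), if_neg (by omega),
        if_neg (by omega), if_neg (by omega)]
      omega
    omega
  | inl a L L' R e _ ih =>
    intro hb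
    simp only [IsBST, keys] at hb
    rw [List.pairwise_append, List.pairwise_cons] at hb
    obtain ⟨hl, ⟨har, -⟩, hlr⟩ := hb
    obtain ⟨k1, k2⟩ := ih hl
    refine ⟨by simp [keys, k1], ?_⟩
    simp only [keys, List.map_append, List.map_cons, List.sum_append, List.sum_cons]
    have h1 : ((keys L).map fun k => dep k (node a L R) - dep k (node a L' R)).sum ≤ e := by
      refine le_trans (List.sum_le_sum fun k hk => ?_) k2
      have : k < a := hlr k hk a (by simp)
      simp only [dep]
      rw [if_neg (by omega), if_pos this, if_neg (by omega), if_pos this]
      omega
    have h2 : dep a (node a L R) - dep a (node a L' R) = 0 := by simp [dep]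
    have h3 : ((keys R).map fun k => dep k (node a L R) - dep k (node a L' R)).sum = 0 := by
      refine sum_zero fun k hk => ?_
      have : a < k := har k hk
      simp only [dep]
      rw [if_neg (by omega), if_neg (by omega), if_neg (by omega), if_neg (by omega)]
      omega
    omega
  | inr a L R R' e _ ih =>
    intro hb
    simp only [IsBST, keys] at hb
    rw [List.pairwise_append, List.pairwise_cons] at hb
    obtain ⟨-, ⟨har, hr⟩, hlr⟩ := hb
    obtain ⟨k1, k2⟩ := ih hr
    refine ⟨by simp [keys, k1], ?_⟩
    simp only [keys, List.map_append, List.map_cons, List.sum_append, List.sum_cons]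
    have h1 : ((keys L).map fun k => dep k (node a L R) - dep k (node a L R')).sum = 0 := by
      refine sum_zero fun k hk => ?_
      have : k < a := hlr k hk a (by simp)
      simp only [dep]
      rw [if_neg (by omega), if_pos this, if_neg (by omega), if_pos this]
      omega
    have h2 : dep a (node a L R) - dep a (node a L R') = 0 := by simp [dep]
    have h3 : ((keys R).map fun k => dep k (node a L R) - dep k (node a L R')).sum ≤ e := by
      refine le_trans (List.sum_le_sum fun k hk => ?_) k2
      have : a < k := har k hk
      simp only [dep]
      rw [if_neg (by omega), if_neg (by omega), if_neg (by omega), if_neg (by omega)]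
      omega
    omega

theorem lrots {T T' : Tr} {e : ℕ} (h : LRots T T' e) : IsBST T → keys T' = keys T ∧
    ((keys T).map fun k => dep k T - dep k T').sum ≤ e := by
  induction h with
  | refl T => intro _; exact ⟨rfl, by simp⟩
  | step T T' T'' e e' h _ ih =>
    intro hb
    obtain ⟨k1, k2⟩ := lrot h hb
    obtain ⟨j1, j2⟩ := ih (by unfold IsBST; rw [k1]; exact hb)
    refine ⟨by rw [j1, k1], ?_⟩
    rw [k1] at j2
    calc ((keys T).map fun k => dep k T - dep k T'').sum
        ≤ ((keys T).map fun k => (dep k T - dep k T') + (dep k T' - dep k T'')).sum :=
          List.sum_le_sum fun k _ => by omega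
      _ = ((keys T).map fun k => dep k T - dep k T').sum +
          ((keys T).map fun k => dep k T' - dep k T'').sum := List.sum_map_add
      _ ≤ e + e' := by omega

/-- `NExec T X c`: the requests `X` are served starting from the tree `T`: a request costs one plus
the depth of its key in the current tree; after it the current tree is replaced by any search tree
with the same keys, at a cost equal to the sum, over the keys other than the requested one, of the
number of levels by which the key comes closer to the root; `c` is the total cost. -/
inductive NExec : Tr → List ℕ → ℕ → Prop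
  | nil (T : Tr) : NExec T [] 0
  | cons (T T' : Tr) (x : ℕ) (X : List ℕ) (c : ℕ) : keys T' = keys T → NExec T' X c →
      NExec T (x :: X) (1 + dep x T +
        ((keys T).map fun a => if a = x then 0 else dep a T - dep a T').sum + c)

theorem nexec {X : List ℕ} : ∀ {T : Tr} {c : ℕ}, NExec T X c → IsBST T →
    (∀ x ∈ X, x ∈ keys T) → ∀ D : ℕ → ℕ, (∀ a ∈ keys T, dep a T ≤ D a) →
    ∃ s : List ℕ, Lev (keys T) D X s ∧
      (s.map fun d => 1 + d).sum ≤ c + ((keys T).map fun a => D a - dep a T).sum := by
  induction X with
  | nil => intro T c _ _ _ D _; exact ⟨[], Lev.nil _, by simp⟩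
  | cons x X ih =>
    intro T c h hb hX D hD
    cases h with
    | cons T T' x X c k1 he =>
    have hb' : IsBST T' := by unfold IsBST; rw [k1]; exact hb
    obtain ⟨s, s1, s2⟩ := ih he hb' (fun y hy => by rw [k1]; exact hX y (by simp [hy]))
      (fun a => if a = x then dep a T' else max (D a) (dep a T')) (by
        intro a _
        split_ifs
        · exact le_refl _
        · exact le_max_right _ _)
    rw [k1] at s1 s2
    refine ⟨D x :: s, Lev.cons D _ T x X s rfl hD ?_ s1, ?_⟩
    · intro a ha
      simp only [if_neg ha]
      exact le_max_left _ _
    · simp only [List.map_cons, List.sum_cons]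
      have hx : x ∈ keys T := hX x (by simp)
      have hdx := hD x hx
      -- the slack
      have key : ((keys T).map fun a => (if a = x then dep a T' else max (D a) (dep a T')) -
          dep a T').sum + (D x - dep x T) ≤
          ((keys T).map fun a => D a - dep a T).sum +
            ((keys T).map fun a => if a = x then 0 else dep a T - dep a T').sum := by
        have nod : (keys T).Nodup := List.Pairwise.imp (fun {a b} h => by omega) hb
        have e1 : D x - dep x T = ((keys T).map fun a => if a = x then D a - dep a T else 0).sum := by
          rw [← List.sum_toFinset _ nod, Finset.sum_ite_eq']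
          rw [if_pos (List.mem_toFinset.2 hx)]
        rw [e1, ← List.sum_map_add, ← List.sum_map_add]
        refine List.sum_le_sum fun a ha => ?_
        have := hD a ha
        split_ifs with h1
        · subst h1; omega
        · omega
      omega

/-- Arbitrary changes of the tree, charged the number of levels by which keys other than the
requested one are lifted. -/
theorem cost_nexec {T : Tr} {X : List ℕ} {c : ℕ} (hb : IsBST T) (hX : ∀ x ∈ X, x ∈ keys T)
    (h : NExec T X c) : costSplay T X ≤ 15 * c := by
  obtain ⟨s, s1, s2⟩ := nexec h hb hX (fun a => dep a T) (fun a _ => le_refl _)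
  have h2 := lev_main hb hX (fun a _ => le_refl _) s1
  have e : ((keys T).map fun a => dep a T - dep a T).sum = 0 := sum_zero fun k _ => by omega
  rw [e] at s2
  have e2 : (s.map fun d => 7 + 15 * d).sum ≤ 15 * (s.map fun d => 1 + d).sum := by
    rw [← List.sum_map_mul_left]
    exact List.sum_le_sum fun d _ => by omega
  omega

theorem lexec_nexec {X : List ℕ} : ∀ {T : Tr} {c : ℕ}, LExec T X c → IsBST T →
    (∀ x ∈ X, x ∈ keys T) → ∃ c' ≤ c, NExec T X c' := by
  induction X with
  | nil => intro T c _ _ _; exact ⟨0, by omega, NExec.nil _⟩
  | cons x X ih =>
    intro T c h hb hX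
    cases h with
    | cons T T' x X e c hr he =>
    obtain ⟨k1, k2⟩ := lrots hr hb
    obtain ⟨c', hc', hn⟩ := ih he (by unfold IsBST; rw [k1]; exact hb)
      (fun y hy => by rw [k1]; exact hX y (by simp [hy]))
    refine ⟨_, ?_, NExec.cons T T' x X c' k1 hn⟩
    have : ((keys T).map fun a => if a = x then 0 else dep a T - dep a T').sum ≤ e := by
      refine le_trans (List.sum_le_sum fun a _ => ?_) k2
      split_ifs <;> omega
    omega

/-- Executions whose rotations are charged the number of keys that they lift. -/
theorem cost_lexec {T : Tr} {X : List ℕ} {c : ℕ} (hb : IsBST T) (hX : ∀ x ∈ X, x ∈ keys T)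
    (h : LExec T X c) : costSplay T X ≤ 15 * c := by
  obtain ⟨c', hc', hn⟩ := lexec_nexec h hb hX
  have := cost_nexec hb hX hn
  omega

end Pool.Agent.Y578.Spl
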