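import Pool.Agent.Y578.Spl.Prune

set_option autoImplicit false

/-! Splaying against level functions that never decrease except at the requested key. -/

namespace Pool.Agent.Y578.Spl

open Pool.Agent.H581R2.Splay Pool.Agent.TH49.Spl Tr

/-- `Lev K D X s`: the requests `X` are served with level functions, the first one being `D`; each
level function is at least the depth function of some search tree with the keys `K`; from one
request to the next no level decreases, except that of the requested key; `s` is the list of the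
levels of the requested keys. -/
inductive Lev (K : List ℕ) : (ℕ → ℕ) → List ℕ → List ℕ → Prop
  | nil (D : ℕ → ℕ) : Lev K D [] []
  | cons (D D' : ℕ → ℕ) (T : Tr) (x : ℕ) (X s : List ℕ) :
      keys T = K → (∀ a ∈ K, dep a T ≤ D a) → (∀ a, a ≠ x → D a ≤ D' a) →
      Lev K D' X s → Lev K D (x :: X) (D x :: s)

theorem kraft16 (O : Tr) (hb : IsBST O) :
    ((keys O).map fun k => (1 / 16 : ℝ) ^ (dep k O + 1)).sum ≤ 1 / 14 := by
  induction O with
  | nil => simp [keys]
  | node a l r ihl ihr =>
    simp only [IsBST, keys] at hb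
    rw [List.pairwise_append, List.pairwise_cons] at hb
    obtain ⟨hl, ⟨har, hr⟩, hlr⟩ := hb
    have e1 : ((keys l).map fun k => (1 / 16 : ℝ) ^ (dep k (node a l r) + 1)).sum =
        1 / 16 * ((keys l).map fun k => (1 / 16 : ℝ) ^ (dep k l + 1)).sum := by
      rw [← List.sum_map_mul_left]
      congr 1
      refine List.map_congr_left fun k hk => ?_
      have : k < a := hlr k hk a (by simp)
      have hd : dep k (node a l r) = dep k l + 1 := by
        simp only [dep]; rw [if_neg (by omega), if_pos this]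
      rw [hd]; ring
    have e2 : ((keys r).map fun k => (1 / 16 : ℝ) ^ (dep k (node a l r) + 1)).sum =
        1 / 16 * ((keys r).map fun k => (1 / 16 : ℝ) ^ (dep k r + 1)).sum := by
      rw [← List.sum_map_mul_left]
      congr 1
      refine List.map_congr_left fun k hk => ?_
      have : a < k := har k hk
      have hd : dep k (node a l r) = dep k r + 1 := by
        simp only [dep]; rw [if_neg (by omega), if_neg (by omega)]
      rw [hd]; ring
    have e3 : dep a (node a l r) = 0 := by simp [dep]
    have h1 := ihl hl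
    have h2 := ihr hr
    simp only [keys, List.map_append, List.map_cons, List.sum_append, List.sum_cons]
    rw [e1, e2, e3]
    norm_num
    linarith

theorem logb_16 (d : ℕ) : Real.logb 2 ((1 / 16 : ℝ) ^ (d + 1)) = -(4 * (d + 1)) := by
  have : (1 / 16 : ℝ) ^ (d + 1) = (2 : ℝ) ^ (-(4 * (d + 1)) : ℝ) := by
    rw [Real.rpow_neg (by norm_num), Real.rpow_mul (by norm_num)]
    have h1 : (2 : ℝ) ^ (4 : ℝ) = 16 := by
      rw [show (4 : ℝ) = ((4 : ℕ) : ℝ) by norm_num, Real.rpow_natCast]; norm_num
    have h2 : ((d : ℝ) + 1) = ((d + 1 : ℕ) : ℝ) := by push_cast; ring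
    rw [h1, h2, Real.rpow_natCast, one_div, inv_pow]
  rw [this, Real.logb_rpow (by norm_num) (by norm_num)]

/-- one request, with a change of the weights -/
theorem pot_step {w w' : ℕ → ℝ} (hw : ∀ a, 0 < w a) (hw' : ∀ a, 0 < w' a) {S : Tr} {x : ℕ}
    (hb : IsBST S) (hx : x ∈ keys S) {B : ℝ} (hB : Real.logb 2 (wt w S) ≤ B)
    (hmono : ∀ a, a ≠ x → w' a ≤ w a) :
    (1 + dep x S : ℝ) + psi w' (splay x S) ≤ psi w S + 2 + 3 * (B - Real.logb 2 (w x)) := by
  obtain ⟨k1, k2, k3⟩ := waccess hw hb hx
  have hb' : IsBST (splay x S) := by unfold IsBST; rw [k1]; exact hb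
  obtain ⟨l, r, hlr⟩ := splay_root x S
  have hS : ∃ a l0 r0, S = node a l0 r0 := by
    cases hSc : S with
    | nil => rw [hSc] at hx; simp [keys] at hx
    | node a l0 r0 => exact ⟨a, l0, r0, rfl⟩
  obtain ⟨a, l0, r0, hS⟩ := hS
  have p1 : pot w S = Real.logb 2 (wt w S) + psi w S := by
    rw [hS]; simp only [pot, psi]; ring
  have p2 : pot w (splay x S) = Real.logb 2 (wt w S) + psi w (splay x S) := by
    rw [← k2, hlr]; simp only [pot, psi]; ring
  have hm : psi w' (splay x S) ≤ psi w (splay x S) := by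
    rw [hlr]
    exact psi_root hw' x l r (by rw [← hlr]; exact hb') hmono
  rw [p1, p2] at k3
  linarith

/-- the weights: keys requested before and to be requested again have their level, the others the
initial one -/
noncomputable def w16 (d0 D : ℕ → ℕ) (R : Finset ℕ) (X : List ℕ) (a : ℕ) : ℝ :=
  if a ∈ R ∧ a ∈ X then (1 / 16 : ℝ) ^ (D a + 1) else (1 / 16 : ℝ) ^ (d0 a + 1)

theorem w16_pos (d0 D : ℕ → ℕ) (R : Finset ℕ) (X : List ℕ) (a : ℕ) : 0 < w16 d0 D R X a := by
  unfold w16; split_ifs <;> positivity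

theorem w16_nil (d0 D : ℕ → ℕ) (R : Finset ℕ) (a : ℕ) :
    w16 d0 D R [] a = (1 / 16 : ℝ) ^ (d0 a + 1) := by
  simp [w16]

theorem log_const : (2 : ℝ) + 3 * (Real.logb 2 (1 / 7) + 4) ≤ 28 / 5 := by
  have h : Real.logb 2 ((16 / 7 : ℝ) ^ 5) ≤ 6 := by
    have : (6 : ℝ) = Real.logb 2 (2 ^ (6 : ℝ)) := by
      rw [Real.logb_rpow (by norm_num) (by norm_num)]
    rw [this]
    refine Real.logb_le_logb_of_le (by norm_num) (by positivity) ?_
    rw [show (6 : ℝ) = ((6 : ℕ) : ℝ) by norm_num, Real.rpow_natCast]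
    norm_num
  rw [Real.logb_pow] at h
  have e : Real.logb 2 (16 / 7 : ℝ) = Real.logb 2 (1 / 7) + 4 := by
    rw [show (16 / 7 : ℝ) = 1 / 7 * 2 ^ (4 : ℝ) by
      rw [show (4 : ℝ) = ((4 : ℕ) : ℝ) by norm_num, Real.rpow_natCast]; norm_num]
    rw [Real.logb_mul (by norm_num) (by positivity), Real.logb_rpow (by norm_num) (by norm_num)]
  rw [e] at h
  push_cast at h
  linarith

theorem log_const2 : (4 : ℝ) - Real.logb 2 14 ≤ 1 / 5 := by
  have h : Real.logb 2 (2 ^ (19 : ℝ)) ≤ Real.logb 2 ((14 : ℝ) ^ 5) := by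
    refine Real.logb_le_logb_of_le (by norm_num) (by positivity) ?_
    rw [show (19 : ℝ) = ((19 : ℕ) : ℝ) by norm_num, Real.rpow_natCast]
    norm_num
  rw [Real.logb_rpow (by norm_num) (by norm_num), Real.logb_pow] at h
  push_cast at h
  linarith

theorem lev_pot {K : List ℕ} {d0 : ℕ → ℕ} (hK : K.Pairwise (· < ·))
    (h0 : (K.map fun a => (1 / 16 : ℝ) ^ (d0 a + 1)).sum ≤ 1 / 14) {D : ℕ → ℕ} {X s : List ℕ}
    (h : Lev K D X s) : ∀ (R : Finset ℕ) (S : Tr), IsBST S → (keys S).Sublist K →
      (∀ x ∈ X, x ∈ keys S) → (∀ a, a ∉ R → a ∈ K → d0 a ≤ D a) →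
      (costSplay S X : ℝ) + psi (fun a => (1 / 16 : ℝ) ^ (d0 a + 1)) (runS S X) ≤
        psi (w16 d0 D R X) S + (s.map fun d : ℕ => (28 / 5 + 12 * (d : ℝ))).sum := by
  induction h with
  | nil D =>
    intro R S _ _ _ _
    have e : w16 d0 D R [] = fun a => (1 / 16 : ℝ) ^ (d0 a + 1) := by
      funext a; exact w16_nil d0 D R a
    simp only [costSplay, runS, List.map_nil, List.sum_nil]
    rw [e]; push_cast; linarith
  | cons D D' T x X s hT hdep hmono _ ih =>
    intro R S hb hsub hX hR
    have hxS := hX x (by simp)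
    have hxK : x ∈ K := hsub.subset hxS
    have hk := splay_keys hb hxS
    have hi := ih (insert x R) (splay x S) (by unfold IsBST; rw [hk]; exact hb)
      (by rw [hk]; exact hsub) (fun y hy => by rw [hk]; exact hX y (by simp [hy])) (by
        intro a ha haK
        rw [Finset.mem_insert, not_or] at ha
        exact le_trans (hR a ha.2 haK) (hmono a ha.1))
    -- the total weight
    have hbT : IsBST T := by unfold IsBST; rw [hT]; exact hK
    have hkr : (K.map fun a => (1 / 16 : ℝ) ^ (D a + 1)).sum ≤ 1 / 14 := by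
      refine le_trans (List.sum_le_sum fun a ha => ?_) (hT ▸ kraft16 T hbT)
      exact pow_le_pow_of_le_one (by norm_num) (by norm_num) (by have := hdep a ha; omega)
    have htot : wt (w16 d0 D R (x :: X)) S ≤ 1 / 7 := by
      rw [wt_eq]
      calc ((keys S).map (w16 d0 D R (x :: X))).sum
          ≤ (K.map (w16 d0 D R (x :: X))).sum := by
            refine List.Sublist.sum_le_sum (hsub.map _) ?_
            intro b hb
            rw [List.mem_map] at hb
            obtain ⟨a, -, rfl⟩ := hb
            exact (w16_pos _ _ _ _ a).le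
        _ ≤ (K.map fun a => (1 / 16 : ℝ) ^ (D a + 1) + (1 / 16 : ℝ) ^ (d0 a + 1)).sum := by
            refine List.sum_le_sum fun a _ => ?_
            have q1 : (0 : ℝ) < (1 / 16) ^ (D a + 1) := by positivity
            have q2 : (0 : ℝ) < (1 / 16) ^ (d0 a + 1) := by positivity
            unfold w16
            split_ifs <;> linarith
        _ = (K.map fun a => (1 / 16 : ℝ) ^ (D a + 1)).sum +
              (K.map fun a => (1 / 16 : ℝ) ^ (d0 a + 1)).sum := List.sum_map_add
        _ ≤ 1 / 7 := by linarith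
    have hS : ∃ a l0 r0, S = node a l0 r0 := by
      cases hSc : S with
      | nil => rw [hSc] at hxS; simp [keys] at hxS
      | node a l0 r0 => exact ⟨a, l0, r0, rfl⟩
    obtain ⟨a0, l0, r0, hSn⟩ := hS
    have hlog : Real.logb 2 (wt (w16 d0 D R (x :: X)) S) ≤ Real.logb 2 (1 / 7) :=
      logb_mono (by rw [hSn]; exact wt_pos (w16_pos _ _ _ _) _ _ _) htot
    have hstep := pot_step (w := w16 d0 D R (x :: X)) (w' := w16 d0 D' (insert x R) X)
      (w16_pos _ _ _ _) (w16_pos _ _ _ _) hb hxS hlog (by
        intro a ha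
        unfold w16
        by_cases hc : a ∈ R ∧ a ∈ X
        · rw [if_pos ⟨Finset.mem_insert_of_mem hc.1, hc.2⟩,
            if_pos ⟨hc.1, List.mem_cons_of_mem _ hc.2⟩]
          exact pow_le_pow_of_le_one (by norm_num) (by norm_num)
            (by have := hmono a ha; omega)
        · have hc' : ¬ (a ∈ insert x R ∧ a ∈ X) := by
            rw [Finset.mem_insert]; tauto
          have hc'' : ¬ (a ∈ R ∧ a ∈ x :: X) := by
            rw [List.mem_cons]; tauto
          rw [if_neg hc', if_neg hc''])
    have hlow : -(4 * ((D x : ℝ) + 1)) ≤ Real.logb 2 (w16 d0 D R (x :: X) x) := by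
      unfold w16
      split_ifs with hc
      · rw [logb_16]
      · rw [logb_16]
        have hxR : x ∉ R := fun hh => hc ⟨hh, by simp⟩
        have := hR x hxR hxK
        have : (d0 x : ℝ) ≤ D x := by exact_mod_cast this
        linarith
    have hc := log_const
    simp only [costSplay, runS, List.map_cons, List.sum_cons]
    push_cast
    linarith

end Pool.Agent.Y578.Spl
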