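import Pool.Agent.TH49.Spl.Win

set_option autoImplicit false

/-! Splaying never looks into a subtree hanging below the nodes it touches: the cost does not change
when such subtrees are cut off. -/

namespace Pool.Agent.Y578.Spl

open Pool.Agent.H581R2.Splay Pool.Agent.TH49.Spl Tr

/-- the keys on the search path of `x` -/
def pathk (x : ℕ) : Tr → Finset ℕ
  | nil => ∅
  | node a l r => insert a (if x = a then ∅ else if x < a then pathk x l else pathk x r)

theorem pathk_card (x : ℕ) (t : Tr) : (pathk x t).card ≤ 1 + dep x t := by
  induction t with
  | nil => simp [pathk]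
  | node a l r ihl ihr =>
    simp only [pathk, dep]
    refine le_trans (Finset.card_insert_le _ _) ?_
    split_ifs
    · simp
    · omega
    · omega

/-- cut off every subtree whose root is not in `Q` -/
def pr (Q : Finset ℕ) : Tr → Tr
  | nil => nil
  | node a l r => if a ∈ Q then node a (pr Q l) (pr Q r) else nil

theorem pr_keys (Q : Finset ℕ) (t : Tr) : (keys (pr Q t)).Sublist (keys t) := by
  induction t with
  | nil => simp [pr, keys]
  | node a l r ihl ihr =>
    simp only [pr]
    split_ifs
    · simp only [keys]
      exact ihl.append (ihr.cons_cons a)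
    · simp [keys]

theorem pr_mem (Q : Finset ℕ) (t : Tr) : ∀ k ∈ keys (pr Q t), k ∈ Q := by
  induction t with
  | nil => simp [pr, keys]
  | node a l r ihl ihr =>
    intro k hk
    simp only [pr] at hk
    split_ifs at hk with h
    · simp only [keys, List.mem_append, List.mem_cons] at hk
      rcases hk with hk | rfl | hk
      · exact ihl k hk
      · exact h
      · exact ihr k hk
    · simp [keys] at hk

/-- cut a frame -/
def prF (Q : Finset ℕ) : Fr → Fr
  | Fr.inL a r => Fr.inL a (pr Q r)
  | Fr.inR a l => Fr.inR a (pr Q l)

/-- the key of a frame -/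
def frk : Fr → ℕ
  | Fr.inL a _ => a
  | Fr.inR a _ => a

theorem climb_pr (Q : Finset ℕ) (x : ℕ) (hx : x ∈ Q) : ∀ (fs : List Fr) (l r : Tr),
    (∀ g ∈ fs, frk g ∈ Q) →
    climb x (fs.map (prF Q)) (pr Q l) (pr Q r) = pr Q (climb x fs l r) := by
  intro fs
  induction hn : fs.length using Nat.strong_induction_on generalizing fs with
  | _ n ih =>
    intro l r hQ
    match fs, hn with
    | [], hn => simp [climb, pr, hx]
    | [Fr.inL y c], hn =>
      have hy : y ∈ Q := hQ (Fr.inL y c) (by simp)
      simp [climb, prF, pr, hx, hy]
    | [Fr.inR y c], hn =>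
      have hy : y ∈ Q := hQ (Fr.inR y c) (by simp)
      simp [climb, prF, pr, hx, hy]
    | Fr.inL y c :: Fr.inL z d :: fs, hn =>
      simp only [List.length_cons] at hn
      have hy : y ∈ Q := hQ (Fr.inL y c) (by simp)
      have hz : z ∈ Q := hQ (Fr.inL z d) (by simp)
      have e : pr Q (node y r (node z c d)) = node y (pr Q r) (node z (pr Q c) (pr Q d)) := by
        simp [pr, hy, hz]
      simp only [List.map_cons, prF, climb]
      rw [← ih fs.length (by omega) fs rfl _ _ (fun g hg => hQ g (by simp [hg])), e]
    | Fr.inR y c :: Fr.inR z d :: fs, hn =>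
      simp only [List.length_cons] at hn
      have hy : y ∈ Q := hQ (Fr.inR y c) (by simp)
      have hz : z ∈ Q := hQ (Fr.inR z d) (by simp)
      have e : pr Q (node y (node z d c) l) = node y (node z (pr Q d) (pr Q c)) (pr Q l) := by
        simp [pr, hy, hz]
      simp only [List.map_cons, prF, climb]
      rw [← ih fs.length (by omega) fs rfl _ _ (fun g hg => hQ g (by simp [hg])), e]
    | Fr.inL y c :: Fr.inR z d :: fs, hn =>
      simp only [List.length_cons] at hn
      have hy : y ∈ Q := hQ (Fr.inL y c) (by simp)
      have hz : z ∈ Q := hQ (Fr.inR z d) (by simp)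
      have e : pr Q (node z d l) = node z (pr Q d) (pr Q l) := by simp [pr, hz]
      have e' : pr Q (node y r c) = node y (pr Q r) (pr Q c) := by simp [pr, hy]
      simp only [List.map_cons, prF, climb]
      rw [← ih fs.length (by omega) fs rfl _ _ (fun g hg => hQ g (by simp [hg])), e, e']
    | Fr.inR y c :: Fr.inL z d :: fs, hn =>
      simp only [List.length_cons] at hn
      have hy : y ∈ Q := hQ (Fr.inR y c) (by simp)
      have hz : z ∈ Q := hQ (Fr.inL z d) (by simp)
      have e : pr Q (node y c l) = node y (pr Q c) (pr Q l) := by simp [pr, hy]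
      have e' : pr Q (node z r d) = node z (pr Q r) (pr Q d) := by simp [pr, hz]
      simp only [List.map_cons, prF, climb]
      rw [← ih fs.length (by omega) fs rfl _ _ (fun g hg => hQ g (by simp [hg])), e, e']

theorem locate_pr (Q : Finset ℕ) (x : ℕ) : ∀ (t : Tr) (fs : List Fr), IsBST t → x ∈ keys t →
    pathk x t ⊆ Q → (∀ g ∈ fs, frk g ∈ Q) →
    locate x (pr Q t) (fs.map (prF Q)) = ((locate x t fs).1.map (prF Q),
      pr Q (locate x t fs).2.1, pr Q (locate x t fs).2.2) ∧
    (∀ g ∈ (locate x t fs).1, frk g ∈ Q) ∧ x ∈ Q := by
  intro t
  induction t with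
  | nil => intro fs _ hx; simp [keys] at hx
  | node a l r ihl ihr =>
    intro fs hb hx hp hQ
    have ha : a ∈ Q := hp (by simp [pathk])
    simp only [IsBST, keys] at hb hx
    rw [List.pairwise_append, List.pairwise_cons] at hb
    obtain ⟨hl, ⟨har, hr⟩, hlr⟩ := hb
    have hpr : pr Q (node a l r) = node a (pr Q l) (pr Q r) := by simp [pr, ha]
    rw [hpr]
    simp only [locate]
    by_cases h1 : x = a
    · subst h1
      simp only [if_true]
      exact ⟨trivial, hQ, ha⟩
    · rw [if_neg h1, if_neg h1]
      by_cases h2 : x < a
      · rw [if_pos h2, if_pos h2]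
        have hxl : x ∈ keys l := by
          rw [List.mem_append, List.mem_cons] at hx
          rcases hx with h | h | h
          · exact h
          · exact absurd h h1
          · have := har x h; omega
        have hp' : pathk x l ⊆ Q := by
          intro k hk
          apply hp
          simp only [pathk, if_neg h1, if_pos h2]
          exact Finset.mem_insert_of_mem hk
        have := ihl (Fr.inL a r :: fs) hl hxl hp' (by
          intro g hg
          rw [List.mem_cons] at hg
          rcases hg with rfl | hg
          · exact ha
          · exact hQ g hg)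
        exact this
      · rw [if_neg h2, if_neg h2]
        have hxr : x ∈ keys r := by
          rw [List.mem_append, List.mem_cons] at hx
          rcases hx with h | h | h
          · have := hlr x h a (by simp); omega
          · exact absurd h h1
          · exact h
        have hp' : pathk x r ⊆ Q := by
          intro k hk
          apply hp
          simp only [pathk, if_neg h1, if_neg h2]
          exact Finset.mem_insert_of_mem hk
        have := ihr (Fr.inR a l :: fs) hr hxr hp' (by
          intro g hg
          rw [List.mem_cons] at hg
          rcases hg with rfl | hg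
          · exact ha
          · exact hQ g hg)
        exact this

theorem splay_pr (Q : Finset ℕ) (x : ℕ) (t : Tr) (hb : IsBST t) (hx : x ∈ keys t)
    (hp : pathk x t ⊆ Q) : splay x (pr Q t) = pr Q (splay x t) := by
  obtain ⟨h1, h2, h3⟩ := locate_pr Q x t [] hb hx hp (by simp)
  simp only [List.map_nil] at h1
  unfold splay
  rw [h1]
  exact climb_pr Q x h3 _ _ _ h2

theorem dep_pr (Q : Finset ℕ) (x : ℕ) (t : Tr) (hp : pathk x t ⊆ Q) :
    dep x (pr Q t) = dep x t := by
  induction t with
  | nil => rfl
  | node a l r ihl ihr =>
    have ha : a ∈ Q := hp (by simp [pathk])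
    simp only [pr, if_pos ha, dep]
    by_cases h1 : x = a
    · simp [h1]
    · rw [if_neg h1, if_neg h1]
      by_cases h2 : x < a
      · rw [if_pos h2, if_pos h2, ihl]
        intro k hk
        apply hp
        simp only [pathk, if_neg h1, if_pos h2]
        exact Finset.mem_insert_of_mem hk
      · rw [if_neg h2, if_neg h2, ihr]
        intro k hk
        apply hp
        simp only [pathk, if_neg h1, if_neg h2]
        exact Finset.mem_insert_of_mem hk

theorem mem_pr (Q : Finset ℕ) (x : ℕ) (t : Tr) (hb : IsBST t) (hx : x ∈ keys t)
    (hp : pathk x t ⊆ Q) : x ∈ keys (pr Q t) := by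
  induction t with
  | nil => simp [keys] at hx
  | node a l r ihl ihr =>
    have ha : a ∈ Q := hp (by simp [pathk])
    simp only [IsBST, keys] at hb hx
    rw [List.pairwise_append, List.pairwise_cons] at hb
    obtain ⟨hl, ⟨har, hr⟩, hlr⟩ := hb
    simp only [pr, if_pos ha, keys, List.mem_append, List.mem_cons]
    by_cases h1 : x = a
    · simp [h1]
    · by_cases h2 : x < a
      · left
        have hxl : x ∈ keys l := by
          rw [List.mem_append, List.mem_cons] at hx
          rcases hx with h | h | h
          · exact h
          · exact absurd h h1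
          · have := har x h; omega
        refine ihl hl hxl ?_
        intro k hk
        apply hp
        simp only [pathk, if_neg h1, if_pos h2]
        exact Finset.mem_insert_of_mem hk
      · right; right
        have hxr : x ∈ keys r := by
          rw [List.mem_append, List.mem_cons] at hx
          rcases hx with h | h | h
          · have := hlr x h a (by simp); omega
          · exact absurd h h1
          · exact h
        refine ihr hr hxr ?_
        intro k hk
        apply hp
        simp only [pathk, if_neg h1, if_neg h2]
        exact Finset.mem_insert_of_mem hk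

/-- all the keys touched while splaying the requests -/
def tch : Tr → List ℕ → Finset ℕ
  | _, [] => ∅
  | t, x :: X => pathk x t ∪ tch (splay x t) X

theorem tch_card (X : List ℕ) : ∀ t : Tr, (tch t X).card ≤ costSplay t X := by
  induction X with
  | nil => intro t; simp [tch]
  | cons x X ih =>
    intro t
    simp only [tch, costSplay]
    have h1 := pathk_card x t
    have h2 := ih (splay x t)
    have h3 := Finset.card_union_le (pathk x t) (tch (splay x t) X)
    omega

theorem splay_keys {t : Tr} {x : ℕ} (hb : IsBST t) (hx : x ∈ keys t) :
    keys (splay x t) = keys t :=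
  (waccess (w := fun _ => 1) (fun _ => one_pos) hb hx).1

theorem costSplay_pr (X : List ℕ) : ∀ (t : Tr) (Q : Finset ℕ), IsBST t → (∀ x ∈ X, x ∈ keys t) →
    tch t X ⊆ Q → costSplay (pr Q t) X = costSplay t X ∧ ∀ x ∈ X, x ∈ keys (pr Q t) := by
  induction X with
  | nil => intro t Q _ _ _; simp [costSplay]
  | cons x X ih =>
    intro t Q hb hX hQ
    simp only [tch] at hQ
    have hp : pathk x t ⊆ Q := fun k hk => hQ (Finset.mem_union_left _ hk)
    have hx := hX x (by simp)
    have hk := splay_keys hb hx
    have hbp : IsBST (pr Q t) := List.Pairwise.sublist (pr_keys Q t) hb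
    have hxp := mem_pr Q x t hb hx hp
    obtain ⟨h1, h2⟩ := ih (splay x t) Q (by unfold IsBST; rw [hk]; exact hb)
      (fun y hy => by rw [hk]; exact hX y (by simp [hy]))
      (fun k hk => hQ (Finset.mem_union_right _ hk))
    simp only [costSplay]
    rw [splay_pr Q x t hb hx hp, dep_pr Q x t hp, h1]
    refine ⟨rfl, ?_⟩
    intro y hy
    rw [List.mem_cons] at hy
    rcases hy with rfl | hy
    · exact hxp
    · have := h2 y hy
      rw [← splay_pr Q x t hb hx hp, splay_keys hbp hxp] at this
      exact this

end Pool.Agent.Y578.Spl
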